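import Mathlib

namespace Pool.Agent.Results.MP_3c8d56_co.Disproof

open SimpleGraph

/-- The clique graph: vertices are the maximal cliques, adjacent when distinct and meeting. -/
def k {V : Type} (G : SimpleGraph V) : SimpleGraph {K : Set V // Maximal G.IsClique K} where
  Adj K L := K ≠ L ∧ (K.1 ∩ L.1).Nonempty
  symm := ⟨fun _ _ h => ⟨h.1.symm, Set.inter_comm _ _ ▸ h.2⟩⟩
  loopless := ⟨fun _ h => h.1 rfl⟩

/-- The iterated clique graph `k^n G`, with its vertex type. -/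
def kIter : ℕ → (Σ V : Type, SimpleGraph V) → (Σ V : Type, SimpleGraph V)
  | 0, G => G
  | n + 1, G => ⟨_, k (kIter n G).2⟩

/-- The closed neighbourhood. -/
def closedNbhd {V : Type} (G : SimpleGraph V) (v : V) : Set V := insert v (G.neighborSet v)

/-- A triangular covering map: a homomorphism of connected graphs whose restriction to each closed
neighbourhood is an isomorphism onto the closed neighbourhood of the image. -/
def IsTriangularCover {W V : Type} (H : SimpleGraph W) (G : SimpleGraph V) (p : H →g G) : Prop :=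
  H.Connected ∧ G.Connected ∧ ∀ w, Set.BijOn p (closedNbhd H w) (closedNbhd G (p w)) ∧
    ∀ x ∈ closedNbhd H w, ∀ y ∈ closedNbhd H w, (G.Adj (p x) (p y) ↔ H.Adj x y)

def mk (n : ℕ) (l : List ℕ) : SimpleGraph (Fin n) where
  Adj u v := (u != v && ((l.getD u 0).testBit v || (l.getD v 0).testBit u)) = true
  symm := ⟨fun u v h => by simpa [bne_comm, Bool.or_comm] using h⟩
  loopless := ⟨fun u h => by simp at h⟩

instance (n : ℕ) (l : List ℕ) : DecidableRel (mk n l).Adj := fun _ _ =>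
  inferInstanceAs (Decidable (_ = true))

lemma conn {n : ℕ} (G : SimpleGraph (Fin (n + 1))) (r : Fin (n + 1) → ℕ)
    (h : ∀ v, v ≠ 0 → ∃ u, G.Adj u v ∧ r u < r v) : G.Connected := by
  have : ∀ m v, r v < m → G.Reachable 0 v := by
    intro m
    induction m with
    | zero => exact fun v hv => absurd hv (Nat.not_lt_zero _)
    | succ m ih =>
      intro v hv
      by_cases e : v = 0
      · rw [e]
      · obtain ⟨u, a1, a2⟩ := h v e
        exact (ih u (by omega)).trans a1.reachable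
  exact ⟨fun u v => (this _ u (Nat.lt_succ_self _)).symm.trans (this _ v (Nat.lt_succ_self _))⟩

lemma kiso {n : ℕ} (hn : 0 < n) (G H : SimpleGraph (Fin n)) (c : Fin n → Fin n → Prop)
    (h1 : ∀ i u v, c i u → c i v → u ≠ v → G.Adj u v)
    (h2 : ∀ i j, i ≠ j → ∃ u, c i u ∧ ¬ c j u)
    (h3 : ∀ u, ∃ i, c i u)
    (h4 : ∀ u v, G.Adj u v → ∃ i, c i u ∧ c i v ∧ ∀ w, G.Adj u w → G.Adj v w → c i w)
    (h5 : ∀ i j, H.Adj i j ↔ i ≠ j ∧ ∃ u, c i u ∧ c j u) : Nonempty (H ≃g k G) := by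
  have sub : ∀ K : Set (Fin n), G.IsClique K → ∃ i, K ⊆ {u | c i u} := by
    intro K hK
    by_cases hs : K.Subsingleton
    · rcases hs.eq_empty_or_singleton with rfl | ⟨u, rfl⟩
      · exact ⟨⟨0, hn⟩, Set.empty_subset _⟩
      · obtain ⟨i, hi⟩ := h3 u
        exact ⟨i, by simpa using hi⟩
    · obtain ⟨u, hu, v, hv, huv⟩ := Set.not_subsingleton_iff.1 hs
      obtain ⟨i, a1, a2, a3⟩ := h4 u v (hK hu hv huv)
      refine ⟨i, fun w hw => ?_⟩
      by_cases e1 : u = w
      · exact e1 ▸ a1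
      by_cases e2 : v = w
      · exact e2 ▸ a2
      exact a3 w (hK hu hw e1) (hK hv hw e2)
  have cl : ∀ i, G.IsClique {u | c i u} := fun i u hu v hv h => h1 i u v hu hv h
  have mx : ∀ i, Maximal G.IsClique {u | c i u} := fun i => ⟨cl i, fun K hK hle => by
    obtain ⟨j, hj⟩ := sub K hK
    by_cases e : i = j
    · exact e ▸ hj
    · obtain ⟨u, a1, a2⟩ := h2 i j e
      exact absurd (hj (hle a1)) a2⟩
  let f : Fin n → {K : Set (Fin n) // Maximal G.IsClique K} := fun i => ⟨_, mx i⟩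
  have inj : Function.Injective f := fun i j e => by
    by_contra h
    obtain ⟨u, a1, a2⟩ := h2 i j h
    have : {u | c i u} = {u | c j u} := congrArg Subtype.val e
    exact a2 (show u ∈ {u | c j u} from this ▸ a1)
  have surj : Function.Surjective f := fun K => by
    obtain ⟨i, hi⟩ := sub K.1 K.2.1
    exact ⟨i, Subtype.ext (Set.Subset.antisymm (K.2.2 (cl i) hi) hi)⟩
  refine ⟨⟨Equiv.ofBijective f ⟨inj, surj⟩, fun {i j} => ?_⟩⟩
  rw [h5]
  exact and_congr inj.ne_iff Iff.rfl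

def G8 := mk 8 [154, 5, 10, 5, 161, 80, 160, 81]
def G16 := mk 16 [2194, 5, 10, 260, 161, 80, 160, 81, 37384, 1280, 2560, 1025, 41216, 20480, 40960, 20736]
def K16 := mk 16 [1058, 5, 130, 48, 72, 1097, 48, 16644, 17024, 2304, 2081, 1536, 24576, 36864, 37248, 24576]
def c8 (i u : Fin 8) : Prop := (([145, 48, 96, 192, 3, 6, 12, 9] : List ℕ).getD i 0).testBit u = true
def c16 (i u : Fin 16) : Prop := (([3, 6, 12, 48, 96, 145, 192, 264, 768, 1536, 2049, 3072, 12288, 24576, 37120, 49152] : List ℕ).getD i 0).testBit u = true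

instance : DecidableRel G8.Adj := inferInstanceAs (DecidableRel (mk _ _).Adj)
instance : DecidableRel G16.Adj := inferInstanceAs (DecidableRel (mk _ _).Adj)
instance : DecidableRel K16.Adj := inferInstanceAs (DecidableRel (mk _ _).Adj)
instance : DecidableRel c8 := fun _ _ => inferInstanceAs (Decidable (_ = true))
instance : DecidableRel c16 := fun _ _ => inferInstanceAs (Decidable (_ = true))

lemma iso8 : Nonempty (G8 ≃g k G8) :=
  kiso (by norm_num) G8 G8 c8 (by decide +kernel) (by decide +kernel) (by decide +kernel)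
    (by decide +kernel) (by decide +kernel)

lemma iso16 : Nonempty (K16 ≃g k G16) :=
  kiso (by norm_num) G16 K16 c16 (by decide +kernel) (by decide +kernel) (by decide +kernel)
    (by decide +kernel) (by decide +kernel)

set_option synthInstance.maxSize 4000 in
lemma noiso : ¬ Nonempty (K16 ≃g G16) := by
  rintro ⟨φ⟩
  have h1 : ∃ a b c d e f : Fin 16, K16.Adj a b ∧ K16.Adj b c ∧ K16.Adj c d ∧ K16.Adj d a ∧ a ≠ c ∧
      b ≠ d ∧ K16.Adj a e ∧ K16.Adj a f ∧ e ≠ f ∧ e ≠ b ∧ e ≠ d ∧ f ≠ b ∧ f ≠ d := 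
    ⟨5, 3, 4, 6, 0, 10, by decide +kernel⟩
  have h2 : ∀ a b : Fin 16, G16.Adj a b → ∀ d, G16.Adj d a → b ≠ d → ∀ c, G16.Adj b c →
      G16.Adj c d → a ≠ c → ∀ e, G16.Adj a e → e ≠ b → e ≠ d → ∀ f, G16.Adj a f → e ≠ f →
      f ≠ b → f = d := by decide +kernel
  obtain ⟨a, b, c, d, e, f, a1, a2, a3, a4, a5, a6, a7, a8, a9, b1, b2, b3, b4⟩ := h1
  exact b4 (φ.injective (h2 (φ a) (φ b) (φ.map_adj_iff.2 a1) (φ d) (φ.map_adj_iff.2 a4)
    (φ.injective.ne a6) (φ c) (φ.map_adj_iff.2 a2) (φ.map_adj_iff.2 a3) (φ.injective.ne a5) (φ e)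
    (φ.map_adj_iff.2 a7) (φ.injective.ne b1) (φ.injective.ne b2) (φ f) (φ.map_adj_iff.2 a8)
    (φ.injective.ne a9) (φ.injective.ne b3)))

def p : G16 →g G8 := ⟨fun u => ⟨u % 8, by omega⟩, by decide +kernel⟩

lemma cover : IsTriangularCover G16 G8 p := by
  refine ⟨conn _ (fun v => v) (by decide +kernel), conn _ (fun v => v) (by decide +kernel), fun w => ⟨⟨?_, ?_, ?_⟩, ?_⟩⟩
  · have : ∀ w x, (x = w ∨ G16.Adj w x) → (p x = p w ∨ G8.Adj (p w) (p x)) := by decide +kernel
    exact fun x hx => this w x hx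
  · have : ∀ w x, (x = w ∨ G16.Adj w x) → ∀ y, (y = w ∨ G16.Adj w y) → p x = p y → x = y := by
      decide +kernel
    exact fun x hx y hy => this w x hx y hy
  · have : ∀ w y, (y = p w ∨ G8.Adj (p w) y) → ∃ x, (x = w ∨ G16.Adj w x) ∧ p x = y := by
      decide +kernel
    exact fun y hy => this w y hy
  · have : ∀ w x, (x = w ∨ G16.Adj w x) → ∀ y, (y = w ∨ G16.Adj w y) →
        (G8.Adj (p x) (p y) ↔ G16.Adj x y) := by decide +kernel
    exact fun x hx y hy => this w x hx y hy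

/-- A triangular covering map between finite connected graphs with `k G ≅ G` but `k H ≇ H`. -/
theorem result : ∃ (a b : ℕ) (H : SimpleGraph (Fin a)) (G : SimpleGraph (Fin b)) (p : H →g G)
    (n : ℕ), 1 ≤ n ∧ IsTriangularCover H G p ∧
      Nonempty ((kIter n ⟨_, G⟩).2 ≃g G) ∧ ¬ Nonempty ((kIter n ⟨_, H⟩).2 ≃g H) := by
  refine ⟨16, 8, G16, G8, p, 1, le_rfl, cover, ?_, ?_⟩
  · obtain ⟨φ⟩ := iso8
    exact ⟨φ.symm⟩
  · rintro ⟨ψ⟩
    obtain ⟨φ⟩ := iso16
    exact noiso ⟨φ.trans ψ⟩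

end Pool.Agent.Results.MP_3c8d56_co.Disproof
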